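import Pool.Agent.N939.ME.Stm

set_option autoImplicit false

/-!
# Martingales with a bounded conditional future variance: truncation and fourth moment (ME15)
-/

open MeasureTheory ProbabilityTheory Filter Topology Finset

namespace Pool.Agent.N317.ME

/-- almost everywhere bounded measurable functions -/
def Bd {Ω : Type} {mΩ : MeasurableSpace Ω} (μ : Measure Ω) (f : Ω → ℝ) : Prop :=
  AEStronglyMeasurable f μ ∧ ∃ C : ℝ, ∀ᵐ ω ∂μ, |f ω| ≤ C

set_option linter.unusedSectionVars false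

variable {Ω : Type} {mΩ : MeasurableSpace Ω} {μ : Measure Ω} [IsProbabilityMeasure μ]

theorem Bd.int {f : Ω → ℝ} (h : Bd μ f) : Integrable f μ := by
  obtain ⟨h1, C, h2⟩ := h
  exact Integrable.of_bound h1 C (h2.mono fun ω h => by rwa [Real.norm_eq_abs])

theorem Bd.add {f g : Ω → ℝ} (hf : Bd μ f) (hg : Bd μ g) : Bd μ (fun ω => f ω + g ω) := by
  obtain ⟨h1, C, h2⟩ := hf
  obtain ⟨h3, D, h4⟩ := hg
  refine ⟨h1.add h3, C + D, ?_⟩
  filter_upwards [h2, h4] with ω h5 h6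
  exact (abs_add_le _ _).trans (add_le_add h5 h6)

theorem Bd.sub {f g : Ω → ℝ} (hf : Bd μ f) (hg : Bd μ g) : Bd μ (fun ω => f ω - g ω) := by
  obtain ⟨h1, C, h2⟩ := hf
  obtain ⟨h3, D, h4⟩ := hg
  refine ⟨h1.sub h3, C + D, ?_⟩
  filter_upwards [h2, h4] with ω h5 h6
  exact (abs_sub _ _).trans (add_le_add h5 h6)

theorem Bd.mul {f g : Ω → ℝ} (hf : Bd μ f) (hg : Bd μ g) : Bd μ (fun ω => f ω * g ω) := by
  obtain ⟨h1, C, h2⟩ := hf
  obtain ⟨h3, D, h4⟩ := hg
  refine ⟨h1.mul h3, |C| * |D|, ?_⟩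
  filter_upwards [h2, h4] with ω h5 h6
  rw [abs_mul]
  exact mul_le_mul (h5.trans (le_abs_self _)) (h6.trans (le_abs_self _)) (abs_nonneg _)
    (abs_nonneg _)

theorem Bd.const (c : ℝ) : Bd μ (fun _ => c) :=
  ⟨aestronglyMeasurable_const, |c|, Eventually.of_forall fun _ => le_rfl⟩

theorem Bd.cmul {f : Ω → ℝ} (c : ℝ) (hf : Bd μ f) : Bd μ (fun ω => c * f ω) := (Bd.const c).mul hf

theorem Bd.pow {f : Ω → ℝ} (hf : Bd μ f) (n : ℕ) : Bd μ (fun ω => f ω ^ n) := by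
  induction n with
  | zero => simpa using Bd.const (μ := μ) 1
  | succ n ih =>
    have h := ih.mul hf
    simpa [pow_succ] using h

theorem Bd.sum {ι : Type} {f : ι → Ω → ℝ} (s : Finset ι) (hf : ∀ i, Bd μ (f i)) :
    Bd μ (fun ω => ∑ i ∈ s, f i ω) := by
  classical
  induction s using Finset.induction_on with
  | empty => simpa using Bd.const (μ := μ) 0
  | insert i s hi ih =>
    simp only [Finset.sum_insert hi]
    exact (hf i).add ih

theorem Bd.congr {f g : Ω → ℝ} (hf : Bd μ f) (h : f =ᵐ[μ] g) : Bd μ g := by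
  obtain ⟨h1, C, h2⟩ := hf
  refine ⟨h1.congr h, C, ?_⟩
  filter_upwards [h2, h] with ω h5 h6
  rwa [← h6]

theorem Bd.condExp {m0 : MeasurableSpace Ω} {f : Ω → ℝ} (hf : Bd μ f) : Bd μ (μ[f|m0]) := by
  obtain ⟨h1, C, h2⟩ := hf
  refine ⟨integrable_condExp.1, C, ?_⟩
  exact ae_bdd_abs_condExp_of_ae_bdd_abs h2

theorem pull {m0 : MeasurableSpace Ω} (hm : m0 ≤ mΩ) {g f : Ω → ℝ} (hg : StronglyMeasurable[m0] g)
    (hgf : Integrable (fun ω => g ω * f ω) μ) (hf : Integrable f μ) :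
    ∫ ω, g ω * f ω ∂μ = ∫ ω, g ω * (μ[f|m0]) ω ∂μ := by
  have h1 := condExp_mul_of_stronglyMeasurable_left hg hgf hf
  rw [← integral_condExp hm (f := fun ω => g ω * f ω)]
  exact integral_congr_ae h1

/-- bounded martingale differences with a bounded conditional future variance -/
structure Dat (μ : Measure Ω) (H : Filtration ℕ mΩ) (n : ℕ) (e : ℕ → Ω → ℝ) (β K : ℝ) : Prop where
  sm : ∀ k, StronglyMeasurable[H (k + 1)] (e k)
  bd : ∀ k, ∀ᵐ ω ∂μ, |e k ω| ≤ β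
  zero : ∀ k, μ[e k|H k] =ᵐ[μ] 0
  le : ∀ k, k ≤ n → ∀ᵐ ω ∂μ, (μ[fun ω => ∑ j ∈ Finset.Ico k n, e j ω ^ 2|H k]) ω ≤ K
  K0 : 0 ≤ K

/-- partial sums -/
def NN (e : ℕ → Ω → ℝ) (k : ℕ) (ω : Ω) : ℝ := ∑ j ∈ range k, e j ω

/-- conditional future variance -/
noncomputable def rho (μ : Measure Ω) (H : Filtration ℕ mΩ) (n : ℕ) (e : ℕ → Ω → ℝ) (k : ℕ) : Ω → ℝ :=
  μ[fun ω => ∑ j ∈ Finset.Ico k n, e j ω ^ 2|H k]

variable {H : Filtration ℕ mΩ} {n : ℕ} {e : ℕ → Ω → ℝ} {β K : ℝ}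

theorem Dat.be (h : Dat μ H n e β K) (k : ℕ) : Bd μ (e k) :=
  ⟨((h.sm k).mono (H.le _)).aestronglyMeasurable, β, h.bd k⟩

theorem Dat.bN (h : Dat μ H n e β K) (k : ℕ) : Bd μ (NN e k) := Bd.sum _ h.be

theorem Dat.bT (h : Dat μ H n e β K) (k : ℕ) :
    Bd μ (fun ω => ∑ j ∈ Finset.Ico k n, e j ω ^ 2) := Bd.sum _ fun j => (h.be j).pow 2

theorem Dat.br (h : Dat μ H n e β K) (k : ℕ) : Bd μ (rho μ H n e k) := (h.bT k).condExp

theorem Dat.sN (h : Dat μ H n e β K) (k : ℕ) : StronglyMeasurable[H k] (NN e k) := by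
  unfold NN
  apply Finset.stronglyMeasurable_fun_sum
  intro j hj
  rw [Finset.mem_range] at hj
  exact (h.sm j).mono (H.mono (by omega))

theorem sr (k : ℕ) : StronglyMeasurable[H k] (rho μ H n e k) := stronglyMeasurable_condExp

theorem rho_nonneg (k : ℕ) : ∀ᵐ ω ∂μ, 0 ≤ rho μ H n e k ω := by
  have := condExp_nonneg (μ := μ) (m := H k) (f := fun ω => ∑ j ∈ Finset.Ico k n, e j ω ^ 2)
    (Eventually.of_forall fun ω => Finset.sum_nonneg fun j _ => sq_nonneg _)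
  exact this

theorem q_nonneg (k : ℕ) : ∀ᵐ ω ∂μ, 0 ≤ (μ[rho μ H n e (k + 1)|H k]) ω :=
  condExp_nonneg (μ := μ) (m := H k) (rho_nonneg (k + 1))

theorem rho_last : rho μ H n e n = 0 := by
  unfold rho
  simp only [Finset.Ico_self, Finset.sum_empty]
  exact condExp_zero

theorem Dat.step (h : Dat μ H n e β K) {k : ℕ} (hk : k < n) :
    ∀ᵐ ω ∂μ, rho μ H n e k ω = (μ[fun ω => e k ω ^ 2|H k]) ω + (μ[rho μ H n e (k + 1)|H k]) ω := by
  have e1 : (fun ω => ∑ j ∈ Finset.Ico k n, e j ω ^ 2) =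
      (fun ω => e k ω ^ 2) + (fun ω => ∑ j ∈ Finset.Ico (k + 1) n, e j ω ^ 2) := by
    funext ω
    rw [Pi.add_apply, Finset.sum_eq_sum_Ico_succ_bot hk]
  have h1 := condExp_add (m := H k) (μ := μ) ((h.be k).pow 2).int (h.bT (k + 1)).int
  have h2 : μ[rho μ H n e (k + 1)|H k] =ᵐ[μ]
      μ[fun ω => ∑ j ∈ Finset.Ico (k + 1) n, e j ω ^ 2|H k] :=
    condExp_condExp_of_le (H.mono (by omega)) (H.le _)
  unfold rho at h2 ⊢
  rw [e1]
  filter_upwards [h1, h2] with ω h3 h4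
  rw [h3, Pi.add_apply, h4]

theorem Dat.int_rho (_h : Dat μ H n e β K) (k : ℕ) :
    ∫ ω, rho μ H n e k ω ∂μ = ∫ ω, ∑ j ∈ Finset.Ico k n, e j ω ^ 2 ∂μ := integral_condExp (H.le k)

theorem Dat.int_rho' (h : Dat μ H n e β K) {k : ℕ} (hk : k ≤ n) :
    ∫ ω, rho μ H n e k ω ∂μ ≤ K := by
  have h1 : ∫ ω, rho μ H n e k ω ∂μ ≤ ∫ _ω, K ∂μ :=
    integral_mono_ae (h.br k).int (integrable_const _) (h.le k hk)
  simpa using h1

theorem Dat.sum_sq (h : Dat μ H n e β K) : ∑ k ∈ range n, ∫ ω, e k ω ^ 2 ∂μ ≤ K := by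
  rw [← integral_finsetSum _ fun k _ => ((h.be k).pow 2).int]
  have h1 := h.int_rho' (Nat.zero_le n)
  rw [h.int_rho, Nat.Ico_zero_eq_range] at h1
  exact h1

theorem Dat.V (h : Dat μ H n e β K) :
    ∑ k ∈ range n, ∫ ω, (rho μ H n e (k + 1) ω - (μ[rho μ H n e (k + 1)|H k]) ω) ^ 2 ∂μ
      ≤ 2 * K ^ 2 := by
  have key : ∀ k ∈ range n,
      ∫ ω, (rho μ H n e (k + 1) ω - (μ[rho μ H n e (k + 1)|H k]) ω) ^ 2 ∂μ ≤
      (∫ ω, rho μ H n e (k + 1) ω ^ 2 ∂μ - ∫ ω, rho μ H n e k ω ^ 2 ∂μ) +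
      2 * K * (∫ ω, rho μ H n e k ω ∂μ - ∫ ω, rho μ H n e (k + 1) ω ∂μ) := by
    intro k hk
    rw [Finset.mem_range] at hk
    set r := rho μ H n e k with hr
    set r' := rho μ H n e (k + 1) with hr'
    set q := μ[r'|H k] with hq
    have br : Bd μ r := h.br k
    have br' : Bd μ r' := h.br (k + 1)
    have bq : Bd μ q := br'.condExp
    have h1 : ∫ ω, q ω * r' ω ∂μ = ∫ ω, q ω * q ω ∂μ :=
      pull (H.le k) stronglyMeasurable_condExp (bq.mul br').int br'.int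
    have h2 : ∫ ω, (r' ω - q ω) ^ 2 ∂μ = ∫ ω, r' ω ^ 2 ∂μ - ∫ ω, q ω ^ 2 ∂μ := by
      have e1 : ∀ ω, (r' ω - q ω) ^ 2 = r' ω ^ 2 - 2 * (q ω * r' ω) + q ω ^ 2 := fun ω => by ring
      simp_rw [e1]
      rw [integral_add ((br'.pow 2).sub ((bq.mul br').cmul 2)).int (bq.pow 2).int,
        integral_sub (br'.pow 2).int ((bq.mul br').cmul 2).int, integral_const_mul, h1]
      have e2 : ∀ ω, q ω * q ω = q ω ^ 2 := fun ω => by ring
      simp_rw [e2]
      ring
    have h3 : ∫ ω, r ω ^ 2 ∂μ - ∫ ω, q ω ^ 2 ∂μ ≤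
        2 * K * (∫ ω, r ω ∂μ - ∫ ω, r' ω ∂μ) := by
      have e3 : ∫ ω, q ω ∂μ = ∫ ω, r' ω ∂μ := integral_condExp (H.le k)
      rw [← e3, ← integral_sub (br.pow 2).int (bq.pow 2).int, ← integral_sub br.int bq.int,
        ← integral_const_mul]
      apply integral_mono_ae ((br.pow 2).sub (bq.pow 2)).int ((br.sub bq).cmul (2 * K)).int
      have h4 := h.step hk
      have h5 : ∀ᵐ ω ∂μ, 0 ≤ (μ[fun ω => e k ω ^ 2|H k]) ω :=
        condExp_nonneg (Eventually.of_forall fun ω => sq_nonneg _)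
      filter_upwards [h4, h5, h.le k hk.le, q_nonneg (μ := μ) (H := H) (n := n) (e := e) k]
        with ω h6 h7 h8 h9
      have h10 : q ω ≤ r ω := by
        rw [hr, h6]
        linarith
      have h11 : r ω ≤ K := h8
      have h12 : 0 ≤ q ω := h9
      show r ω ^ 2 - q ω ^ 2 ≤ 2 * K * (r ω - q ω)
      nlinarith
    rw [h2]
    linarith
  refine (Finset.sum_le_sum key).trans ?_
  rw [Finset.sum_add_distrib, ← Finset.mul_sum,
    Finset.sum_range_sub (fun k => ∫ ω, rho μ H n e k ω ^ 2 ∂μ),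
    Finset.sum_range_sub' (fun k => ∫ ω, rho μ H n e k ω ∂μ)]
  rw [rho_last]
  have h1 := h.int_rho' (Nat.zero_le n)
  have h2 : 0 ≤ ∫ ω, rho μ H n e 0 ω ^ 2 ∂μ := integral_nonneg fun ω => sq_nonneg _
  simp only [Pi.zero_apply, ne_eq, OfNat.ofNat_ne_zero, not_false_eq_true, zero_pow,
    integral_zero]
  have := h.K0
  nlinarith

theorem Dat.cross (h : Dat μ H n e β K) {g : Ω → ℝ} {k : ℕ} (hg : StronglyMeasurable[H k] g)
    (hb : Bd μ g) : ∫ ω, g ω * e k ω ∂μ = 0 := by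
  rw [pull (H.le k) hg (hb.mul (h.be k)).int (h.be k).int]
  rw [integral_congr_ae (g := fun _ => (0:ℝ)) (by
    filter_upwards [h.zero k] with ω h1
    rw [h1, Pi.zero_apply, mul_zero])]
  simp

theorem Dat.X (h : Dat μ H n e β K) :
    ∑ k ∈ range n, ∫ ω, NN e k ω ^ 2 * e k ω ^ 2 ∂μ ≤ 10 * K ^ 2 := by
  have key : ∀ k ∈ range n, ∫ ω, NN e k ω ^ 2 * e k ω ^ 2 ∂μ ≤
      2 * (∫ ω, NN e k ω ^ 2 * rho μ H n e k ω ∂μ -
        ∫ ω, NN e (k + 1) ω ^ 2 * rho μ H n e (k + 1) ω ∂μ) +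
      4 * ∫ ω, (rho μ H n e (k + 1) ω - (μ[rho μ H n e (k + 1)|H k]) ω) ^ 2 ∂μ +
      2 * K * ∫ ω, e k ω ^ 2 ∂μ := by
    intro k hk
    rw [Finset.mem_range] at hk
    set r := rho μ H n e k with hr
    set r' := rho μ H n e (k + 1) with hr'
    set q := μ[r'|H k] with hq
    have br : Bd μ r := h.br k
    have br' : Bd μ r' := h.br (k + 1)
    have bq : Bd μ q := br'.condExp
    have bN := h.bN k
    have be := h.be k
    have sN := h.sN k
    have sN2 : StronglyMeasurable[H k] (fun ω => NN e k ω ^ 2) := sN.pow 2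
    -- the left side
    have h1 : ∫ ω, NN e k ω ^ 2 * e k ω ^ 2 ∂μ =
        ∫ ω, NN e k ω ^ 2 * r ω ∂μ - ∫ ω, NN e k ω ^ 2 * r' ω ∂μ := by
      rw [pull (f := fun ω => e k ω ^ 2) (H.le k) sN2 ((bN.pow 2).mul (be.pow 2)).int
        (be.pow 2).int]
      rw [pull (f := r') (H.le k) sN2 ((bN.pow 2).mul br').int br'.int]
      rw [← integral_sub ((bN.pow 2).mul br).int ((bN.pow 2).mul bq).int]
      apply integral_congr_ae
      filter_upwards [h.step hk] with ω h2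
      have h3 : r ω = (μ[fun ω => e k ω ^ 2|H k]) ω + q ω := h2
      rw [h3]
      ring
    have h2 : ∫ ω, NN e (k + 1) ω ^ 2 * r' ω ∂μ = ∫ ω, NN e k ω ^ 2 * r' ω ∂μ +
        2 * ∫ ω, NN e k ω * e k ω * r' ω ∂μ + ∫ ω, e k ω ^ 2 * r' ω ∂μ := by
      have e1 : ∀ ω, NN e (k + 1) ω ^ 2 * r' ω = NN e k ω ^ 2 * r' ω +
          2 * (NN e k ω * e k ω * r' ω) + e k ω ^ 2 * r' ω := fun ω => by
        unfold NN
        rw [Finset.sum_range_succ]
        ring
      simp_rw [e1]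
      rw [integral_add (((bN.pow 2).mul br').add (((bN.mul be).mul br').cmul 2)).int
        ((be.pow 2).mul br').int, integral_add ((bN.pow 2).mul br').int
        (((bN.mul be).mul br').cmul 2).int, integral_const_mul]
    have h3 : ∫ ω, NN e k ω * e k ω * r' ω ∂μ = ∫ ω, NN e k ω * e k ω * (r' ω - q ω) ∂μ := by
      have h4 : ∫ ω, NN e k ω * q ω * e k ω ∂μ = 0 :=
        h.cross (sN.mul stronglyMeasurable_condExp) (bN.mul bq)
      have e1 : ∀ ω, NN e k ω * e k ω * (r' ω - q ω) =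
          NN e k ω * e k ω * r' ω - NN e k ω * q ω * e k ω := fun ω => by ring
      simp_rw [e1]
      rw [integral_sub ((bN.mul be).mul br').int ((bN.mul bq).mul be).int, h4, sub_zero]
    have h4 : 2 * ∫ ω, NN e k ω * e k ω * (r' ω - q ω) ∂μ ≤
        1 / 2 * ∫ ω, NN e k ω ^ 2 * e k ω ^ 2 ∂μ + 2 * ∫ ω, (r' ω - q ω) ^ 2 ∂μ := by
      rw [← integral_const_mul, ← integral_const_mul, ← integral_const_mul,
        ← integral_add (((bN.pow 2).mul (be.pow 2)).cmul (1/2)).int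
          (((br'.sub bq).pow 2).cmul 2).int]
      apply integral_mono (((bN.mul be).mul (br'.sub bq)).cmul 2).int
        ((((bN.pow 2).mul (be.pow 2)).cmul (1/2)).add (((br'.sub bq).pow 2).cmul 2)).int
      intro ω
      show 2 * (NN e k ω * e k ω * (r' ω - q ω)) ≤
        1 / 2 * (NN e k ω ^ 2 * e k ω ^ 2) + 2 * (r' ω - q ω) ^ 2
      nlinarith [sq_nonneg (NN e k ω * e k ω - 2 * (r' ω - q ω))]
    have h5 : ∫ ω, e k ω ^ 2 * r' ω ∂μ ≤ K * ∫ ω, e k ω ^ 2 ∂μ := by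
      rw [← integral_const_mul]
      apply integral_mono_ae ((be.pow 2).mul br').int ((be.pow 2).cmul K).int
      filter_upwards [h.le (k + 1) (by omega)] with ω h6
      have h7 : r' ω ≤ K := h6
      show e k ω ^ 2 * r' ω ≤ K * e k ω ^ 2
      nlinarith [sq_nonneg (e k ω)]
    rw [h3] at h2
    linarith
  refine (Finset.sum_le_sum key).trans ?_
  rw [Finset.sum_add_distrib, Finset.sum_add_distrib, ← Finset.mul_sum, ← Finset.mul_sum,
    ← Finset.mul_sum, Finset.sum_range_sub' (fun k => ∫ ω, NN e k ω ^ 2 * rho μ H n e k ω ∂μ)]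
  have h1 := h.V
  have h2 := h.sum_sq
  have e0 : ∀ ω, NN e 0 ω ^ 2 * rho μ H n e 0 ω = 0 := fun ω => by
    unfold NN
    simp
  have e1 : ∀ ω, NN e n ω ^ 2 * rho μ H n e n ω = 0 := fun ω => by
    rw [rho_last, Pi.zero_apply, mul_zero]
  simp_rw [e0, e1]
  rw [integral_zero]
  have h3 := h.K0
  nlinarith

theorem Dat.four (h : Dat μ H n e β K) :
    ∫ ω, NN e n ω ^ 4 ∂μ ≤ 80 * K ^ 2 + 3 * (β ^ 2 * K) := by
  have key : ∀ k ∈ range n, ∫ ω, NN e (k + 1) ω ^ 4 ∂μ - ∫ ω, NN e k ω ^ 4 ∂μ ≤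
      8 * ∫ ω, NN e k ω ^ 2 * e k ω ^ 2 ∂μ + 3 * β ^ 2 * ∫ ω, e k ω ^ 2 ∂μ := by
    intro k _
    have bN := h.bN k
    have be := h.be k
    have h1 : ∫ ω, NN e k ω ^ 3 * e k ω ∂μ = 0 := h.cross ((h.sN k).pow 3) (bN.pow 3)
    have h2 : ∫ ω, NN e (k + 1) ω ^ 4 ∂μ ≤ ∫ ω, NN e k ω ^ 4 ∂μ +
        4 * ∫ ω, NN e k ω ^ 3 * e k ω ∂μ + 8 * ∫ ω, NN e k ω ^ 2 * e k ω ^ 2 ∂μ +
        3 * β ^ 2 * ∫ ω, e k ω ^ 2 ∂μ := by
      rw [← integral_const_mul, ← integral_const_mul, ← integral_const_mul,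
        ← integral_add (bN.pow 4).int (((bN.pow 3).mul be).cmul 4).int,
        ← integral_add ((bN.pow 4).add (((bN.pow 3).mul be).cmul 4)).int
          (((bN.pow 2).mul (be.pow 2)).cmul 8).int,
        ← integral_add (((bN.pow 4).add (((bN.pow 3).mul be).cmul 4)).add
          (((bN.pow 2).mul (be.pow 2)).cmul 8)).int ((be.pow 2).cmul (3 * β ^ 2)).int]
      apply integral_mono_ae ((h.bN (k + 1)).pow 4).int ((((bN.pow 4).add
        (((bN.pow 3).mul be).cmul 4)).add (((bN.pow 2).mul (be.pow 2)).cmul 8)).add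
        ((be.pow 2).cmul (3 * β ^ 2))).int
      filter_upwards [h.bd k] with ω h3
      show NN e (k + 1) ω ^ 4 ≤ NN e k ω ^ 4 + 4 * (NN e k ω ^ 3 * e k ω) +
        8 * (NN e k ω ^ 2 * e k ω ^ 2) + 3 * β ^ 2 * e k ω ^ 2
      have e1 : NN e (k + 1) ω = NN e k ω + e k ω := by
        unfold NN
        rw [Finset.sum_range_succ]
      rw [e1]
      set N := NN e k ω
      set d := e k ω
      have h4 : d ^ 2 ≤ β ^ 2 := sq_le_sq' (by linarith [neg_abs_le d]) (by linarith [le_abs_self d])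
      have h5 : d ^ 2 * d ^ 2 ≤ β ^ 2 * d ^ 2 := mul_le_mul_of_nonneg_right h4 (sq_nonneg d)
      nlinarith [sq_nonneg (N * d - d ^ 2)]
    rw [h1] at h2
    linarith
  have h1 := Finset.sum_le_sum key
  rw [Finset.sum_range_sub (f := fun k => ∫ ω, NN e k ω ^ 4 ∂μ), Finset.sum_add_distrib,
    ← Finset.mul_sum, ← Finset.mul_sum] at h1
  have h2 := h.X
  have h3 := h.sum_sq
  have e0 : ∀ ω, NN e 0 ω ^ 4 = 0 := fun ω => by
    unfold NN
    simp
  simp_rw [e0] at h1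
  rw [integral_zero, sub_zero] at h1
  have h4 : 3 * β ^ 2 * ∑ k ∈ range n, ∫ ω, e k ω ^ 2 ∂μ ≤ 3 * β ^ 2 * K :=
    mul_le_mul_of_nonneg_left h3 (by positivity)
  linarith

/-! ### The truncation -/

section main

variable {m : ℕ → Ω → ℝ} {b : ℝ}

/-- the increments -/
def dd (m : ℕ → Ω → ℝ) (k : ℕ) (ω : Ω) : ℝ := m (k + 1) ω - m k ω

/-- the truncated increments -/
noncomputable def tt (m : ℕ → Ω → ℝ) (b : ℝ) (k : ℕ) (ω : Ω) : ℝ :=
  {ω | |dd m k ω| ≤ b}.indicator (dd m k) ω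

theorem dd_sm (hm : Martingale m H μ) (k : ℕ) : StronglyMeasurable[H (k + 1)] (dd m k) :=
  (hm.stronglyMeasurable (k + 1)).sub ((hm.stronglyMeasurable k).mono (H.mono (by omega)))

theorem tt_sm (hm : Martingale m H μ) (k : ℕ) : StronglyMeasurable[H (k + 1)] (tt m b k) := by
  have h1 := dd_sm hm k
  have h2 : MeasurableSet[H (k + 1)] {ω | |dd m k ω| ≤ b} := by
    have h3 : Measurable[H (k + 1)] (dd m k) := h1.measurable
    exact (continuous_abs.measurable.comp h3) measurableSet_Iic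
  exact h1.indicator h2

theorem tt_le (hb : 0 ≤ b) (k : ℕ) (ω : Ω) : |tt m b k ω| ≤ b := by
  unfold tt
  by_cases h : |dd m k ω| ≤ b
  · rw [Set.indicator_of_mem (by exact h)]
    exact h
  · rw [Set.indicator_of_notMem (by exact h), abs_zero]
    exact hb

theorem tt_sq (k : ℕ) (ω : Ω) : tt m b k ω ^ 2 ≤ dd m k ω ^ 2 := by
  unfold tt
  by_cases h : |dd m k ω| ≤ b
  · rw [Set.indicator_of_mem (by exact h)]
  · rw [Set.indicator_of_notMem (by exact h)]
    simpa using sq_nonneg (dd m k ω)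

theorem rem_sq (k : ℕ) (ω : Ω) : (dd m k ω - tt m b k ω) ^ 2 =
    if b < |m (k + 1) ω - m k ω| then (m (k + 1) ω - m k ω) ^ 2 else 0 := by
  unfold tt
  by_cases h : |dd m k ω| ≤ b
  · rw [Set.indicator_of_mem (by exact h), if_neg (by exact not_lt.2 h)]
    ring
  · rw [Set.indicator_of_notMem (by exact h), if_pos (by exact not_le.1 h), sub_zero]
    rfl

theorem dd_mem (hL : ∀ k, MemLp (m k) 2 μ) (k : ℕ) : MemLp (dd m k) 2 μ := (hL (k + 1)).sub (hL k)

theorem tt_bd (hm : Martingale m H μ) (hb : 0 ≤ b) (k : ℕ) : Bd μ (tt m b k) :=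
  ⟨((tt_sm hm k).mono (H.le _)).aestronglyMeasurable, b, Eventually.of_forall (tt_le hb k)⟩

theorem Bd.memLp {f : Ω → ℝ} (h : Bd μ f) (p : ENNReal) : MemLp f p μ := by
  obtain ⟨h1, C, h2⟩ := h
  exact MemLp.of_bound h1 C (h2.mono fun ω h => by rwa [Real.norm_eq_abs])

theorem dd_zero (hm : Martingale m H μ) (k : ℕ) : μ[dd m k|H k] =ᵐ[μ] 0 := by
  have h1 := condExp_sub (μ := μ) (hm.integrable (k + 1)) (hm.integrable k) (H k)
  have h2 := hm.condExp_ae_eq (Nat.le_succ k)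
  have h3 := hm.condExp_ae_eq (le_refl k)
  have e : dd m k = m (k + 1) - m k := rfl
  rw [e]
  filter_upwards [h1, h2, h3] with ω h4 h5 h6
  rw [h4, Pi.sub_apply, h6]
  have : (μ[m (k + 1)|H k]) ω = m k ω := h5
  rw [this]
  simp

/-- the second moment of the future is the sum of the squares of the increments -/
theorem pyth (hm : Martingale m H μ) (hL : ∀ k, MemLp (m k) 2 μ) (k : ℕ) (j : ℕ) :
    μ[fun ω => (m (k + j) ω - m k ω) ^ 2|H k] =ᵐ[μ]
      μ[fun ω => ∑ i ∈ Finset.Ico k (k + j), dd m i ω ^ 2|H k] := by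
  induction j with
  | zero =>
    have e1 : (fun ω => (m (k + 0) ω - m k ω) ^ 2) = fun _ => 0 := by
      funext ω; simp
    have e2 : (fun ω => ∑ i ∈ Finset.Ico k (k + 0), dd m i ω ^ 2) = fun _ => 0 := by
      funext ω; simp
    rw [e1, e2]
  | succ j ih =>
    have i1 : MemLp (fun ω => m (k + j) ω - m k ω) 2 μ := (hL (k + j)).sub (hL k)
    have i2 := dd_mem hL (k + j)
    have i3 : Integrable (fun ω => (m (k + j) ω - m k ω) ^ 2) μ := i1.integrable_sq
    have i4 : Integrable (fun ω => dd m (k + j) ω ^ 2) μ := i2.integrable_sq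
    have i5 : Integrable (fun ω => (m (k + j) ω - m k ω) * dd m (k + j) ω) μ :=
      i1.integrable_mul i2
    have i6 : Integrable (fun ω => ∑ i ∈ Finset.Ico k (k + j), dd m i ω ^ 2) μ :=
      integrable_finsetSum _ fun i _ => (dd_mem hL i).integrable_sq
    have e1 : (fun ω => (m (k + (j + 1)) ω - m k ω) ^ 2) =
        ((fun ω => (m (k + j) ω - m k ω) ^ 2) + fun ω => dd m (k + j) ω ^ 2) +
          fun ω => 2 * ((m (k + j) ω - m k ω) * dd m (k + j) ω) := by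
      funext ω
      simp only [Pi.add_apply, dd]
      rw [show k + (j + 1) = k + j + 1 by omega]
      ring
    have e2 : (fun ω => ∑ i ∈ Finset.Ico k (k + (j + 1)), dd m i ω ^ 2) =
        (fun ω => ∑ i ∈ Finset.Ico k (k + j), dd m i ω ^ 2) + fun ω => dd m (k + j) ω ^ 2 := by
      funext ω
      rw [Pi.add_apply, show k + (j + 1) = k + j + 1 by omega,
        Finset.sum_Ico_succ_top (by omega)]
    rw [e1, e2]
    have h1 := condExp_add (m := H k) (i3.add i4) (i5.const_mul 2)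
    have h2 := condExp_add (m := H k) i3 i4
    have h3 := condExp_add (m := H k) i6 i4
    -- the cross term
    have h4 : μ[fun ω => 2 * ((m (k + j) ω - m k ω) * dd m (k + j) ω)|H k] =ᵐ[μ] 0 := by
      have h5 : μ[fun ω => (m (k + j) ω - m k ω) * dd m (k + j) ω|H (k + j)] =ᵐ[μ] 0 := by
        have h6 := condExp_mul_of_stronglyMeasurable_left (m := H (k + j)) (μ := μ)
          (f := fun ω => m (k + j) ω - m k ω) (g := dd m (k + j))
          ((hm.stronglyMeasurable (k + j)).sub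
            ((hm.stronglyMeasurable k).mono (H.mono (by omega)))) i5
          (i2.integrable one_le_two)
        have h7 := dd_zero hm (k + j)
        filter_upwards [h6, h7] with ω h8 h9
        have h10 : (μ[fun ω => (m (k + j) ω - m k ω) * dd m (k + j) ω|H (k + j)]) ω =
          (m (k + j) ω - m k ω) * (μ[dd m (k + j)|H (k + j)]) ω := h8
        rw [h10, h9]
        simp
      have h6 : μ[μ[fun ω => (m (k + j) ω - m k ω) * dd m (k + j) ω|H (k + j)]|H k] =ᵐ[μ]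
          μ[fun ω => (m (k + j) ω - m k ω) * dd m (k + j) ω|H k] :=
        condExp_condExp_of_le (H.mono (by omega)) (H.le _)
      have h7 := condExp_congr_ae (m := H k) h5
      rw [condExp_zero] at h7
      have h8 := condExp_smul (μ := μ) (m := H k) (2:ℝ)
        (fun ω => (m (k + j) ω - m k ω) * dd m (k + j) ω)
      filter_upwards [h6, h7, h8] with ω h9 h10 h11
      have h12 : (μ[fun ω => 2 * ((m (k + j) ω - m k ω) * dd m (k + j) ω)|H k]) ω =
        2 * (μ[fun ω => (m (k + j) ω - m k ω) * dd m (k + j) ω|H k]) ω := h11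
      rw [h12, ← h9, h10]
      simp
    filter_upwards [h1, h2, h3, h4, ih] with ω g1 g2 g3 g4 g5
    rw [g1, Pi.add_apply, g2, Pi.add_apply, g4, g3, Pi.add_apply, g5]
    simp

/-- the centred truncated increments -/
noncomputable def ee (μ : Measure Ω) (H : Filtration ℕ mΩ) (m : ℕ → Ω → ℝ) (b : ℝ) (k : ℕ) :
    Ω → ℝ := tt m b k - μ[tt m b k|H k]

/-- the centred large increments -/
noncomputable def uu (μ : Measure Ω) (H : Filtration ℕ mΩ) (m : ℕ → Ω → ℝ) (b : ℝ) (k : ℕ) :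
    Ω → ℝ := (dd m k - tt m b k) - μ[dd m k - tt m b k|H k]

theorem dat (hm : Martingale m H μ) (hL : ∀ k, MemLp (m k) 2 μ) (hb : 0 ≤ b) (hK : 0 ≤ K)
    (hc : ∀ k, k ≤ n → ∀ᵐ ω ∂μ, (μ[fun ω => (m n ω - m k ω) ^ 2 | H k]) ω ≤ K) :
    Dat μ H n (ee μ H m b) (2 * b) K where
  sm k := (tt_sm hm k).sub (stronglyMeasurable_condExp.mono (H.mono (by omega)))
  bd k := by
    have h1 : ∀ᵐ ω ∂μ, |(μ[tt m b k|H k]) ω| ≤ b :=
      ae_bdd_abs_condExp_of_ae_bdd_abs (Eventually.of_forall (tt_le hb k))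
    filter_upwards [h1] with ω h2
    have h3 := tt_le (m := m) hb k ω
    have h4 : ee μ H m b k ω = tt m b k ω - (μ[tt m b k|H k]) ω := rfl
    rw [h4]
    have := abs_sub (tt m b k ω) ((μ[tt m b k|H k]) ω)
    linarith
  zero k := by
    have bt := tt_bd (b := b) hm hb k
    have h1 := condExp_sub (μ := μ) bt.int (integrable_condExp (f := tt m b k) (m := H k)) (H k)
    have h2 : μ[μ[tt m b k|H k]|H k] = μ[tt m b k|H k] :=
      condExp_of_stronglyMeasurable (H.le k) stronglyMeasurable_condExp integrable_condExp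
    unfold ee
    filter_upwards [h1] with ω h3
    rw [h3, Pi.sub_apply, h2, sub_self]
    rfl
  le k hk := by
    obtain ⟨j, rfl⟩ := Nat.exists_eq_add_of_le hk
    have be : ∀ i, Bd μ (ee μ H m b i) := fun i => (tt_bd hm hb i).sub (tt_bd hm hb i).condExp
    have h1 : μ[fun ω => ∑ i ∈ Finset.Ico k (k + j), ee μ H m b i ω ^ 2|H k] ≤ᵐ[μ]
        μ[fun ω => ∑ i ∈ Finset.Ico k (k + j), dd m i ω ^ 2|H k] := by
      have e1 := condExp_finsetSum (μ := μ) (s := Finset.Ico k (k + j))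
        (f := fun i ω => ee μ H m b i ω ^ 2) (fun i _ => ((be i).pow 2).int) (H k)
      have e2 := condExp_finsetSum (μ := μ) (s := Finset.Ico k (k + j))
        (f := fun i ω => dd m i ω ^ 2) (fun i _ => (dd_mem hL i).integrable_sq) (H k)
      have e3 : (∑ i ∈ Finset.Ico k (k + j), fun ω => ee μ H m b i ω ^ 2) =
          fun ω => ∑ i ∈ Finset.Ico k (k + j), ee μ H m b i ω ^ 2 := by
        funext ω; simp
      have e4 : (∑ i ∈ Finset.Ico k (k + j), fun ω => dd m i ω ^ 2) =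
          fun ω => ∑ i ∈ Finset.Ico k (k + j), dd m i ω ^ 2 := by
        funext ω; simp
      rw [e3] at e1
      rw [e4] at e2
      have h2 : ∀ i, k ≤ i → μ[fun ω => ee μ H m b i ω ^ 2|H k] ≤ᵐ[μ]
          μ[fun ω => dd m i ω ^ 2|H k] := by
        intro i hi
        have h3 : μ[fun ω => ee μ H m b i ω ^ 2|H i] ≤ᵐ[μ] μ[fun ω => dd m i ω ^ 2|H i] := by
          have h4 := condVar_ae_le_condExp_sq (μ := μ) (H.le i) ((tt_bd (b := b) hm hb i).memLp 2)
          have h5 : μ[tt m b i ^ 2|H i] ≤ᵐ[μ] μ[fun ω => dd m i ω ^ 2|H i] :=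
            condExp_mono ((tt_bd hm hb i).pow 2).int (dd_mem hL i).integrable_sq
              (Eventually.of_forall (tt_sq i))
          exact h4.trans h5
        have h4 : μ[μ[fun ω => ee μ H m b i ω ^ 2|H i]|H k] ≤ᵐ[μ]
            μ[μ[fun ω => dd m i ω ^ 2|H i]|H k] :=
          condExp_mono integrable_condExp integrable_condExp h3
        have h5 : μ[μ[fun ω => ee μ H m b i ω ^ 2|H i]|H k] =ᵐ[μ]
            μ[fun ω => ee μ H m b i ω ^ 2|H k] := condExp_condExp_of_le (H.mono hi) (H.le _)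
        have h6 : μ[μ[fun ω => dd m i ω ^ 2|H i]|H k] =ᵐ[μ]
            μ[fun ω => dd m i ω ^ 2|H k] := condExp_condExp_of_le (H.mono hi) (H.le _)
        filter_upwards [h4, h5, h6] with ω g1 g2 g3
        rwa [g2, g3] at g1
      have h3 : ∀ᵐ ω ∂μ, ∀ i ∈ Finset.Ico k (k + j),
          (μ[fun ω => ee μ H m b i ω ^ 2|H k]) ω ≤ (μ[fun ω => dd m i ω ^ 2|H k]) ω := by
        rw [Filter.eventually_all_finset]
        intro i hi
        exact h2 i (Finset.mem_Ico.1 hi).1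
      filter_upwards [e1, e2, h3] with ω g1 g2 g3
      rw [g1, g2, Finset.sum_apply, Finset.sum_apply]
      exact Finset.sum_le_sum g3
    have h2 := pyth hm hL k j
    filter_upwards [h1, h2, hc k (by omega)] with ω g1 g2 g3
    rw [← g2] at g1
    exact g1.trans g3
  K0 := hK

theorem ee_uu (hm : Martingale m H μ) (hb : 0 ≤ b) (k : ℕ) :
    ∀ᵐ ω ∂μ, dd m k ω = ee μ H m b k ω + uu μ H m b k ω := by
  have bt := tt_bd (b := b) hm hb k
  have h1 := condExp_sub (μ := μ) (((hm.integrable (k + 1)).sub (hm.integrable k))) bt.int (H k)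
  have h2 := dd_zero hm k
  filter_upwards [h1, h2] with ω h3 h4
  have h5 : (μ[dd m k - tt m b k|H k]) ω = (μ[dd m k|H k]) ω - (μ[tt m b k|H k]) ω := h3
  show dd m k ω = (tt m b k ω - (μ[tt m b k|H k]) ω) +
    ((dd m k ω - tt m b k ω) - (μ[dd m k - tt m b k|H k]) ω)
  rw [h5, h4]
  simp

theorem uu_mem (hm : Martingale m H μ) (hL : ∀ k, MemLp (m k) 2 μ) (hb : 0 ≤ b) (k : ℕ) :
    MemLp (uu μ H m b k) 2 μ := by
  have h1 : MemLp (dd m k - tt m b k) 2 μ := (dd_mem hL k).sub ((tt_bd hm hb k).memLp 2)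
  exact h1.sub (h1.condExp one_le_two)

theorem uu_sm (hm : Martingale m H μ) (k : ℕ) : StronglyMeasurable[H (k + 1)] (uu μ H m b k) :=
  ((dd_sm hm k).sub (tt_sm hm k)).sub (stronglyMeasurable_condExp.mono (H.mono (by omega)))

theorem uu_zero (hm : Martingale m H μ) (hL : ∀ k, MemLp (m k) 2 μ) (hb : 0 ≤ b) (k : ℕ) :
    μ[uu μ H m b k|H k] =ᵐ[μ] 0 := by
  have h0 : MemLp (dd m k - tt m b k) 2 μ := (dd_mem hL k).sub ((tt_bd hm hb k).memLp 2)
  have h1 := condExp_sub (μ := μ) (h0.integrable one_le_two)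
    (integrable_condExp (f := dd m k - tt m b k) (m := H k)) (H k)
  have h2 : μ[μ[dd m k - tt m b k|H k]|H k] = μ[dd m k - tt m b k|H k] :=
    condExp_of_stronglyMeasurable (H.le k) stronglyMeasurable_condExp integrable_condExp
  unfold uu
  filter_upwards [h1] with ω h3
  rw [h3, Pi.sub_apply, h2, sub_self]
  rfl

theorem uu_sq (hm : Martingale m H μ) (hL : ∀ k, MemLp (m k) 2 μ) (hb : 0 ≤ b) (k : ℕ) :
    ∫ ω, uu μ H m b k ω ^ 2 ∂μ ≤ ∫ ω, (dd m k ω - tt m b k ω) ^ 2 ∂μ := by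
  have h0 : MemLp (dd m k - tt m b k) 2 μ := (dd_mem hL k).sub ((tt_bd hm hb k).memLp 2)
  have h1 := condVar_ae_le_condExp_sq (μ := μ) (H.le k) h0
  have h2 := integral_mono_ae integrable_condExp integrable_condExp h1
  rw [integral_condExp (H.le k), integral_condExp (H.le k)] at h2
  exact h2

theorem UU_sq (hm : Martingale m H μ) (hL : ∀ k, MemLp (m k) 2 μ) (hb : 0 ≤ b) (n : ℕ) :
    ∫ ω, (∑ k ∈ range n, uu μ H m b k ω) ^ 2 ∂μ = ∑ k ∈ range n, ∫ ω, uu μ H m b k ω ^ 2 ∂μ := by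
  induction n with
  | zero => simp
  | succ n ih =>
    have i1 : MemLp (fun ω => ∑ k ∈ range n, uu μ H m b k ω) 2 μ :=
      memLp_finsetSum _ fun k _ => uu_mem hm hL hb k
    have i2 := uu_mem hm hL hb n
    have h1 : ∫ ω, (∑ k ∈ range n, uu μ H m b k ω) * uu μ H m b n ω ∂μ = 0 := by
      rw [pull (H.le n) (Finset.stronglyMeasurable_fun_sum _ fun k hk => (uu_sm hm k).mono
        (H.mono (by rw [Finset.mem_range] at hk; omega))) (i1.integrable_mul i2)
        (i2.integrable one_le_two)]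
      rw [integral_congr_ae (g := fun _ => (0:ℝ)) (by
        filter_upwards [uu_zero hm hL hb n] with ω h1
        rw [h1, Pi.zero_apply, mul_zero])]
      simp
    rw [Finset.sum_range_succ, ← ih]
    have e1 : ∀ ω, (∑ k ∈ range (n + 1), uu μ H m b k ω) ^ 2 =
        (∑ k ∈ range n, uu μ H m b k ω) ^ 2 +
        2 * ((∑ k ∈ range n, uu μ H m b k ω) * uu μ H m b n ω) + uu μ H m b n ω ^ 2 := by
      intro ω
      rw [Finset.sum_range_succ]
      ring
    simp_rw [e1]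
    have i3 : Integrable (fun ω => (∑ k ∈ range n, uu μ H m b k ω) * uu μ H m b n ω) μ :=
      i1.integrable_mul i2
    have i4 : Integrable (fun ω => (∑ k ∈ range n, uu μ H m b k ω) ^ 2) μ := i1.integrable_sq
    have i5 : Integrable (fun ω => uu μ H m b n ω ^ 2) μ := i2.integrable_sq
    have i6 : Integrable (fun ω => (∑ k ∈ range n, uu μ H m b k ω) ^ 2 +
        2 * ((∑ k ∈ range n, uu μ H m b k ω) * uu μ H m b n ω)) μ := i4.add (i3.const_mul 2)
    rw [integral_add i6 i5, integral_add i4 (i3.const_mul 2), integral_const_mul, h1]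
    ring

end main

open scoped Classical in
/-- **S_D1** -/
theorem d1 : Pool.Agent.N939.ME.S_D1 := by
  intro Ω mΩ μ _ H n m b K hb hK hm hL hc
  have D := dat (b := b) hm hL hb hK hc
  refine ⟨NN (ee μ H m b) n, fun ω => ∑ k ∈ range n, uu μ H m b k ω, ?_, ?_, ?_, ?_, ?_, ?_, ?_⟩
  · exact ((D.sN n).mono (H.le n)).measurable
  · exact Finset.measurable_fun_sum _ fun k _ => ((uu_sm hm k).mono (H.le _)).measurable
  · exact memLp_finsetSum _ fun k _ => uu_mem hm hL hb k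
  · exact (D.bN n).memLp 4
  · have h1 : ∀ᵐ ω ∂μ, ∀ k, dd m k ω = ee μ H m b k ω + uu μ H m b k ω := by
      rw [ae_all_iff]
      exact fun k => ee_uu hm hb k
    filter_upwards [h1] with ω h2
    unfold NN
    rw [← Finset.sum_add_distrib, ← Finset.sum_range_sub (fun k => m k ω)]
    exact Finset.sum_congr rfl fun k _ => h2 k
  · rw [UU_sq hm hL hb n]
    refine Finset.sum_le_sum fun k _ => (uu_sq hm hL hb k).trans (le_of_eq ?_)
    simp_rw [rem_sq]
  · refine D.four.trans ?_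
    have h1 : 0 ≤ b ^ 2 * K := by positivity
    have h2 : 0 ≤ K ^ 2 := by positivity
    have e : (2 * b) ^ 2 = 4 * b ^ 2 := by ring
    rw [e]
    nlinarith

end Pool.Agent.N317.ME
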